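import Pool.Agent.L0h32.UX.Stm
import Pool.Agent.H630R2.LA.Tab

/-!
# Project UX: module CMP (helper24)
-/

set_option autoImplicit false
set_option linter.all false

namespace Pool.Agent.L0h24.UX

open Relation
open Pool.Agent.L0h32.UX
open Pool.Agent.H630R2.LA (LimAut Sym fz Fr Cfg Step init initTape WS lrel bitS ix nr Ann keep
  finite_WS rewrite_keep lift nr_zero)

section cmp

variable {A : Type} {h : ℕ} {rel : A → Fin (2 ^ h) → Fin (2 ^ h) → Bool}
  {p0 : Fin (2 ^ h)} {facc : Fin (2 ^ h) → Bool} {K : ℕ}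
  {W : ℕ → ℕ → Fin (2 ^ h) → Fin (2 ^ h) → ℕ} {N : ℕ}

theorem cnL_zero (w : List A) (β l : ℕ) : cnL h rel p0 w β l 0 = 0 := by
  classical
  unfold cnL
  rw [Finset.card_eq_zero, Finset.filter_eq_empty_iff]
  rintro q - ⟨h1, -⟩
  exact Nat.not_lt_zero _ h1

theorem wok0 (w : List A) : WOK h rel p0 w 0 (w0 h p0) := by
  refine ⟨?_, ?_, ?_, ?_, ?_⟩
  · simp [w0]
  · simp [w0]
  · simp [w0]
  · rw [Nat.zero_div, Nat.zero_mul, Nat.zero_mod, cnL_zero]
    rfl
  · rw [Nat.zero_div, Nat.zero_mul, nr_zero]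
    simp [w0]

/-- the annotation of a new cell -/
theorem ann_new {w : List A} {t : ℕ} {τ : ℕ → Sym (WS A)} {x : Wr} (hA : Ann h rel p0 w τ t)
    (hx : WOK h rel p0 w t x) (ht : t < w.length) :
    Ann h rel p0 w (Function.update τ (t + 1) (.sym (.mark w[t] x.b))) (t + 1) := by
  refine ⟨?_, ?_⟩
  · rw [Function.update_of_ne (by omega)]
    exact hA.1
  · intro i hi
    rcases Nat.lt_or_ge i t with h1 | h1
    · rw [Function.update_of_ne (by omega)]
      exact hA.2 i h1
    · have h2 : i = t := by omega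
      subst h2
      rw [Function.update_self]
      exact ⟨w[i], x.b, List.getElem?_eq_getElem ht, rfl, hx.2.2.2.2⟩

/-- the number of layers is at most `2 * 2 ^ h` -/
theorem LL_le {w : List A} {t : ℕ} {x : Wr} (hx : WOK h rel p0 w t x) (fin : Bool) :
    LL h x fin ≤ 2 * 2 ^ h := by
  have hp : 0 < 2 ^ h := Nat.two_pow_pos h
  have hk : x.k < 2 ^ h := by
    rw [hx.2.1]
    exact Nat.mod_lt _ hp
  unfold LL
  split_ifs <;> omega

variable [Finite A] {hQ : Finite {s : St h // Bd h N s}}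

theorem init_sym {w : List A} {t : ℕ} (ht : t < w.length) :
    initTape (uM h rel p0 facc K W N hQ) w (t + 1) = .sym (.raw w[t]) := by
  have h1 : w[t]? = some w[t] := List.getElem?_eq_getElem ht
  simp only [initTape, h1]
  rfl

theorem init_rm (w : List A) :
    initTape (uM h rel p0 facc K W N hQ) w (w.length + 1) = .rm := by
  simp only [initTape, List.getElem?_eq_none (le_refl w.length)]

/-- runs on the frozen tape are runs of the machine -/
theorem rs_fr {strict : Prop} (hM : S_MOV) {w : List A} {t : ℕ} {τ : ℕ → Sym (WS A)}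
    (ht : t ≤ w.length) (hA : Ann h rel p0 w τ (min (t + 1) w.length))
    (hB1 : ∀ (t : ℕ) (s : St h) (x : ℕ), SOK h rel p0 facc K W w t s x → Bd h N s)
    (hB2 : ∀ (t : ℕ) (x : Wr), WOK h rel p0 w t x → BdW N x)
    {c c' : St h × ℕ} (hr : ReflTransGen (RS h rel p0 facc K W τ (t + 1)) c c')
    (hs : SOK h rel p0 facc K W w t c.1 c.2) (hb : Bd h N c.1) :
    (SOK h rel p0 facc K W w t c'.1 c'.2 ∨
      (c'.2 = t + 2 ∧ ∃ x, c'.1 = .wr x ∧ WOK h rel p0 w (t + 1) x)) ∧
    ∃ hb' : Bd h N c'.1, ReflTransGen (Fr strict (uM h rel p0 facc K W N hQ) τ (t + 1))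
      ((⟨c.1, hb⟩ : {s : St h // Bd h N s}), c.2) (⟨c'.1, hb'⟩, c'.2) := by
  induction hr with
  | refl => exact ⟨Or.inl hs, hb, ReflTransGen.refl⟩
  | tail _ hstep ih =>
    rename_i c1 c2 _
    obtain ⟨hs1, hb1, hrun⟩ := ih
    obtain ⟨h1, d, h3, h4, h5⟩ := hstep
    have hs2 : SOK h rel p0 facc K W w t c1.1 c1.2 := by
      rcases hs1 with h | ⟨h, -⟩
      · exact h
      · omega
    obtain ⟨-, -, h6⟩ := hM A h rel p0 facc K W w t τ ht hA c1.1 c2.1 c1.2 c2.2 _ d hs2 h3 h4 h5
    have h7 : SOK h rel p0 facc K W w t c2.1 c2.2 ∨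
        (c2.2 = t + 2 ∧ ∃ x, c2.1 = .wr x ∧ WOK h rel p0 w (t + 1) x) := by
      rcases h6 with ⟨x'', -, e2, -, e4, e5, -⟩ | h6
      · exact Or.inr ⟨e4, x'', e2, e5⟩
      · exact Or.inl h6
    have hb2 : Bd h N c2.1 := by
      rcases h7 with h7 | ⟨-, x, h8, h9⟩
      · exact hB1 _ _ _ h7
      · rw [h8]
        exact hB2 _ _ h9
    exact ⟨h7, hb2, hrun.tail ⟨h1, d, ⟨_, h3, fun _ => rewrite_keep _⟩, h4, h5⟩⟩

/-- The main loop. -/
theorem loop (hAL : S_ALL) (h0 : S_MV0) (hM : S_MOV) {strict : Prop} (w : List A)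
    (hB1 : ∀ (t : ℕ) (s : St h) (x : ℕ), SOK h rel p0 facc K W w t s x → Bd h N s)
    (hB2 : ∀ (t : ℕ) (x : Wr), WOK h rel p0 w t x → BdW N x)
    (hWG : WGood h rel p0 K W) (t : ℕ) (ht : t ≤ w.length) :
    ∃ (τ : ℕ → Sym (WS A)) (S : Set ℕ) (x : Wr) (hx : BdW N x), Ann h rel p0 w τ t ∧
      (∀ i, t < i → τ i = initTape (uM h rel p0 facc K W N hQ) w i) ∧
      (∀ i, 1 ≤ i → (i ∈ S ↔ i ≤ t)) ∧ WOK h rel p0 w t x ∧
      ReflTransGen (Step strict w.length) (init (uM h rel p0 facc K W N hQ) w)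
        ⟨⟨.wr x, hx⟩, t + 1, τ, S⟩ := by
  have hK : 0 < K := by
    obtain ⟨i, hi, -⟩ := hWG w 0 0 (Nat.zero_le _)
    omega
  induction t with
  | zero =>
    refine ⟨initTape (uM h rel p0 facc K W N hQ) w, ∅, w0 h p0, bd_w0 h p0 N, ⟨rfl, ?_⟩,
      fun _ _ => rfl, ?_, wok0 w, ReflTransGen.refl⟩
    · intro i hi; exact absurd hi (Nat.not_lt_zero _)
    · intro i hi; simp; omega
  | succ t ih =>
    obtain ⟨τ, S, x, hx, hA, hτ, hS, hW, hreach⟩ := ih (by omega)
    have hlt : t < w.length := by omega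
    have hcell : τ (t + 1) = .sym (.raw w[t]) :=
      (hτ (t + 1) (by omega)).trans (init_sym hlt)
    have hA' := ann_new hA hW hlt
    have hnot : t + 1 ∉ S := by
      intro h
      have := (hS (t + 1) (by omega)).1 h
      omega
    have hS1 : ∀ i, 1 ≤ i → (i ∈ insert (t + 1) S ↔ i ≤ t + 1) := by
      intro i hi
      rw [Set.mem_insert_iff, hS i hi]
      omega
    have hmok : MOK h rel p0 facc K W w t (mem0 h p0 facc x false 0) :=
      h0 A h rel p0 facc K W w t 0 x false hK hW (fun _ => hlt) (fun h => absurd h (by simp))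
    have hsok : SOK h rel p0 facc K W w t (.hm (mem0 h p0 facc x false 0)) t := ⟨hmok, rfl⟩
    have hb : Bd h N (.hm (mem0 h p0 facc x false 0)) := hB1 _ _ _ hsok
    have hstep : Step strict w.length
        (⟨⟨.wr x, hx⟩, t + 1, τ, S⟩ : Cfg (uM h rel p0 facc K W N hQ))
        ⟨⟨.hm (mem0 h p0 facc x false 0), hb⟩, t,
          Function.update τ (t + 1) (.sym (.mark w[t] x.b)), insert (t + 1) S⟩ := by
      refine ⟨by show t + 1 ≤ w.length + 1; omega, _, .mark w[t] x.b, false, ?_,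
        fun _ h => absurd h hnot, rfl, fun h => absurd h hnot, ?_, rfl, by simp, by simp⟩
      · show Tr h rel p0 facc K W (.wr x) (τ (t + 1)) _ _ _
        rw [hcell]
        exact Tr.wrL x w[t]
      · intro _
        show _ = Function.update τ (t + 1) ((τ (t + 1)).rewrite (.mark w[t] x.b))
        rw [hcell]
        rfl
    have hmin : min (t + 1) w.length = t + 1 := by omega
    set τ' := Function.update τ (t + 1) (.sym (.mark w[t] x.b)) with hτ'
    have hAm : Ann h rel p0 w τ' (min (t + 1) w.length) := by rw [hmin]; exact hA'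
    obtain ⟨m, hm, hmx, hmf, hml, hrun⟩ := hAL A h rel p0 facc K W w t τ' (by omega) hAm x false hW
      (fun _ => hlt) (fun h => absurd h (by simp)) (hWG w _ _ (LL_le hW false))
    have hs1 : RS h rel p0 facc K W τ' (t + 1) (.hm m, t) (.ex (nxt h m.x m.f), t + 1) :=
      ⟨by show t ≤ t + 1; omega, true, Tr.exi m _ hmf hml, fun _ => rfl,
        fun h => absurd h (by simp)⟩
    have hs2 : RS h rel p0 facc K W τ' (t + 1) (.ex (nxt h m.x m.f), t + 1)
        (.wr (nxt h m.x m.f), t + 2) :=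
      ⟨le_rfl, true, Tr.wrt _ _, fun _ => rfl, fun h => absurd h (by simp)⟩
    obtain ⟨h7, hb', hrun'⟩ := rs_fr (strict := strict) (hQ := hQ) hM (by omega) hAm hB1 hB2
      ((hrun.tail hs1).tail hs2) hsok hb
    have hW' : WOK h rel p0 w (t + 1) (nxt h m.x m.f) := by
      rcases h7 with h7 | ⟨-, x', h8, h9⟩
      · exact absurd h7 (fun h => h)
      · have h8' : St.wr (nxt h m.x m.f) = (St.wr x' : St h) := h8
        injection h8' with h10
        rw [h10]
        exact h9
    obtain ⟨S', hS', hlift⟩ := lift (n := w.length) (by omega) hA'.1 hrun' _ hS1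
    refine ⟨_, S', nxt h m.x m.f, hb', hA', ?_, hS', hW', (hreach.tail hstep).trans hlift⟩
    intro i hi
    rw [hτ', Function.update_of_ne (by omega)]
    exact hτ i (by omega)

end cmp

/-- **CMP** -/
theorem t_CMP (hAL : S_ALL) (hB : S_BND) (h0 : S_MV0) (hM : S_MOV) : S_CMP := by
  intro A _ strict h rel p0 facc K W R N hQ w hWR hN hWG
  obtain ⟨hB1', hB2'⟩ := hB A h rel p0 facc K W R N hWR hN
  have hB1 := hB1' w
  have hB2 := hB2' w
  have hK : 0 < K := by
    obtain ⟨i, hi, -⟩ := hWG w 0 0 (Nat.zero_le _)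
    omega
  obtain ⟨τ, S, x, hx, hA, hτ, hS, hW, hreach⟩ := loop (strict := strict) (rel := rel) (p0 := p0)
    (facc := facc) (hQ := hQ) hAL h0 hM w hB1 hB2 hWG w.length le_rfl
  have hcell : τ (w.length + 1) = .rm := (hτ (w.length + 1) (by omega)).trans (init_rm w)
  have hnot : w.length + 1 ∉ S := by
    intro h
    have := (hS (w.length + 1) (by omega)).1 h
    omega
  have hS1 : ∀ i, 1 ≤ i → (i ∈ insert (w.length + 1) S ↔ i ≤ w.length + 1) := by
    intro i hi
    rw [Set.mem_insert_iff, hS i hi]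
    omega
  have hmok : MOK h rel p0 facc K W w w.length (mem0 h p0 facc x true 0) :=
    h0 A h rel p0 facc K W w w.length 0 x true hK hW (fun h => absurd h (by simp)) (fun _ => rfl)
  have hsok : SOK h rel p0 facc K W w w.length (.hm (mem0 h p0 facc x true 0)) w.length :=
    ⟨hmok, rfl⟩
  have hb : Bd h N (.hm (mem0 h p0 facc x true 0)) := hB1 _ _ _ hsok
  have hstep : Step strict w.length
      (⟨⟨.wr x, hx⟩, w.length + 1, τ, S⟩ : Cfg (uM h rel p0 facc K W N hQ))
      ⟨⟨.hm (mem0 h p0 facc x true 0), hb⟩, w.length, τ, insert (w.length + 1) S⟩ := by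
    refine ⟨le_rfl, _, .dum, false, ?_, fun _ h => absurd h hnot, rfl,
      fun h => absurd h hnot, ?_, rfl, by simp, by simp⟩
    · show Tr h rel p0 facc K W (.wr x) (τ (w.length + 1)) _ _ _
      rw [hcell]
      exact Tr.wrR x
    · intro _
      show τ = Function.update τ (w.length + 1) ((τ (w.length + 1)).rewrite .dum)
      funext i
      by_cases hi : i = w.length + 1
      · subst hi
        rw [Function.update_self, hcell]
        rfl
      · rw [Function.update_of_ne hi]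
  have hmin : min (w.length + 1) w.length = w.length := by omega
  have hAm : Ann h rel p0 w τ (min (w.length + 1) w.length) := by rw [hmin]; exact hA
  obtain ⟨m, hm, hmx, hmf, hml, hrun⟩ := hAL A h rel p0 facc K W w w.length τ le_rfl hAm x true hW
    (fun h => absurd h (by simp)) (fun _ => rfl) (hWG w _ _ (LL_le hW true))
  have hs1 : RS h rel p0 facc K W τ (w.length + 1) (.hm m, w.length) (.f1 m.f, w.length + 1) :=
    ⟨by show w.length ≤ w.length + 1; omega, true, Tr.acc m _ hmf hml, fun _ => rfl,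
      fun h => absurd h (by simp)⟩
  have hs2 : RS h rel p0 facc K W τ (w.length + 1) (.f1 m.f, w.length + 1)
      (.fin m.f, w.length + 2) :=
    ⟨le_rfl, true, Tr.fin _ _, fun _ => rfl, fun h => absurd h (by simp)⟩
  obtain ⟨-, hb', hrun'⟩ := rs_fr (strict := strict) (hQ := hQ) hM le_rfl hAm hB1 hB2
    ((hrun.tail hs1).tail hs2) hsok hb
  obtain ⟨S', hS', hlift⟩ := lift (n := w.length) le_rfl hA.1 hrun' _ hS1
  refine ⟨_, (hreach.tail hstep).trans hlift, rfl, ?_⟩
  show St.fin m.f = St.fin true ∨ St.fin m.f = St.fin false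
  cases m.f
  · exact Or.inr rfl
  · exact Or.inl rfl

end Pool.Agent.L0h24.UX
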